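import Pool.Agent.helper32.Cant.Defs

set_option autoImplicit false

namespace Pool.Agent.helper32.Cant

open Finset

theorem cell_lt {n k : ℕ} (hk : k ≤ 2 * n) (v : ZMod (3 ^ (2 * n))) : cell n k v < 3 ^ k := by
  unfold cell
  rw [Nat.div_lt_iff_lt_mul (by positivity), ← pow_add]
  have : k + (2 * n - k) = 2 * n := by omega
  rw [this]
  exact ZMod.val_lt v

theorem cell_div {n k k' : ℕ} (h : k ≤ k') (hk : k' ≤ 2 * n) (v : ZMod (3 ^ (2 * n))) :
    cell n k v = cell n k' v / 3 ^ (k' - k) := by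
  unfold cell
  rw [Nat.div_div_eq_div_mul, ← pow_add]
  congr 2
  omega

private theorem bR_div_aux (R n j j' : ℕ) (h : j ≤ j') :
    R / 3 ^ (n - j) = R / 3 ^ (n - j') / 3 ^ ((n - j) - (n - j')) := by
  rw [Nat.div_div_eq_div_mul, ← pow_add]
  congr 2
  omega

theorem bR_div {n : ℕ} (c : Cfg n) {j j' : ℕ} (h : j ≤ j') (hj : j' ≤ n) (x : Sp n) :
    bR c j x = bR c j' x / 3 ^ (j' - j) := by
  unfold bR
  rw [bR_div_aux _ n j j' h]
  congr 2
  omega

/-- (no condition on `j'`: for `j ≥ n` the observable `bR c j` is the whole radius) -/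
theorem ref_obs {n : ℕ} (c : Cfg n) {k k' j j' : ℕ} (hk : k ≤ k') (hkn : k' ≤ 2 * n)
    (hj : j ≤ j') : Ref (obs c k j) (obs c k' j') := by
  intro x y hxy
  simp only [obs, Prod.mk.injEq] at hxy ⊢
  obtain ⟨h1, h2, h3, h4⟩ := hxy
  refine ⟨h1, h2, ?_, ?_⟩
  · rw [cell_div hk hkn, cell_div hk hkn, h3]
  · unfold bR at h4 ⊢
    rw [bR_div_aux _ n j j' hj, bR_div_aux (c.R y.1.1) n j j' hj, h4]

private theorem geo_sum (n : ℕ) : 2 * ∑ i ∈ range n, (3 : ℤ) ^ (n - 1 - i) = 3 ^ n - 1 := by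
  rw [Finset.sum_range_reflect (fun i => (3 : ℤ) ^ i) n]
  induction n with
  | zero => simp
  | succ m ih => rw [Finset.sum_range_succ, mul_add, ih, pow_succ]; ring

private theorem abs_sgn (b : Bool) : |sgn b| = 1 := by
  cases b <;> simp [sgn]

theorem abs_E_le {n : ℕ} (w : Word n) : 2 * |E w| ≤ 3 ^ n - 1 := by
  unfold E
  rw [← geo_sum n, ← Fin.sum_univ_eq_sum_range (fun i => (3 : ℤ) ^ (n - 1 - i)) n]
  have := Finset.abs_sum_le_sum_abs (fun i : Fin n => sgn (w i) * 3 ^ (n - 1 - (i : ℕ))) univ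
  have h2 : ∀ i : Fin n, |sgn (w i) * 3 ^ (n - 1 - (i : ℕ))| = 3 ^ (n - 1 - (i : ℕ)) := by
    intro i
    rw [abs_mul, abs_sgn, one_mul, abs_of_nonneg (by positivity)]
  simp only [h2] at this
  linarith

/-- the difference of two words which agree before `i` -/
private theorem E_sub {n : ℕ} (w w' : Word n) :
    E w' - E w = ∑ l : Fin n, (sgn (w' l) - sgn (w l)) * 3 ^ (n - 1 - (l : ℕ)) := by
  unfold E
  rw [← Finset.sum_sub_distrib]
  refine Finset.sum_congr rfl fun l _ => ?_
  ring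

private theorem abs_sgn_sub_le (b b' : Bool) : |sgn b' - sgn b| ≤ 2 := by
  cases b <;> cases b' <;> simp [sgn]

private theorem tail_sum (n i : ℕ) (hi : i ≤ n) :
    2 * ∑ l ∈ range n, (if l < i then (0 : ℤ) else 3 ^ (n - 1 - l)) = 3 ^ (n - i) - 1 := by
  have h1 : ∑ l ∈ range n, (if l < i then (0 : ℤ) else 3 ^ (n - 1 - l))
      = ∑ l ∈ range (n - i), (3 : ℤ) ^ ((n - i) - 1 - l) := by
    have : n = i + (n - i) := by omega
    conv_lhs => rw [this, Finset.sum_range_add]
    have h2 : ∑ x ∈ range i, (if x < i then (0 : ℤ) else 3 ^ (i + (n - i) - 1 - x)) = 0 := by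
      refine Finset.sum_eq_zero fun x hx => ?_
      rw [if_pos (Finset.mem_range.mp hx)]
    rw [h2, zero_add]
    refine Finset.sum_congr rfl fun x _ => ?_
    rw [if_neg (by omega)]
    congr 1
    omega
  rw [h1]
  exact geo_sum (n - i)

theorem abs_E_sub_le {n i : ℕ} (hi : i ≤ n) {w w' : Word n} (h : agree i w w') :
    |E w' - E w| ≤ 3 ^ (n - i) - 1 := by
  rw [E_sub, ← tail_sum n i hi,
    ← Fin.sum_univ_eq_sum_range (fun l => if l < i then (0 : ℤ) else 3 ^ (n - 1 - l)) n,
    Finset.mul_sum]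
  refine (Finset.abs_sum_le_sum_abs _ _).trans (Finset.sum_le_sum fun l _ => ?_)
  by_cases hl : (l : ℕ) < i
  · rw [if_pos hl, h l hl]
    simp
  · rw [if_neg hl, abs_mul, abs_of_nonneg (by positivity : (0 : ℤ) ≤ 3 ^ (n - 1 - (l : ℕ)))]
    exact mul_le_mul_of_nonneg_right (abs_sgn_sub_le _ _) (by positivity)

private theorem abs_sgn_sub_of_ne {b b' : Bool} (h : b' ≠ b) : |sgn b' - sgn b| = 2 := by
  cases b <;> cases b' <;> simp [sgn] at h ⊢

theorem le_abs_E_sub {n i : ℕ} (hi : i < n) {w w' : Word n} (h : agree i w w')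
    (h' : differ i w w') : 3 ^ (n - 1 - i) ≤ |E w' - E w| := by
  have h0 := h' ⟨i, hi⟩ rfl
  have h1 : E w' - E w = (sgn (w' ⟨i, hi⟩) - sgn (w ⟨i, hi⟩)) * 3 ^ (n - 1 - i)
      + ∑ l ∈ univ.erase (⟨i, hi⟩ : Fin n), (sgn (w' l) - sgn (w l)) * 3 ^ (n - 1 - (l : ℕ)) := by
    rw [E_sub, ← Finset.add_sum_erase _ _ (Finset.mem_univ (⟨i, hi⟩ : Fin n))]
  have h2 : |∑ l ∈ univ.erase (⟨i, hi⟩ : Fin n), (sgn (w' l) - sgn (w l)) * 3 ^ (n - 1 - (l : ℕ))|
      ≤ 3 ^ (n - (i + 1)) - 1 := by
    rw [← tail_sum n (i + 1) (by omega),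
      ← Fin.sum_univ_eq_sum_range (fun l => if l < i + 1 then (0 : ℤ) else 3 ^ (n - 1 - l)) n,
      Finset.mul_sum]
    refine (Finset.abs_sum_le_sum_abs _ _).trans ?_
    refine (Finset.sum_le_sum (g := fun l : Fin n =>
      2 * (if (l : ℕ) < i + 1 then (0 : ℤ) else 3 ^ (n - 1 - (l : ℕ)))) fun l hl => ?_).trans
      (Finset.sum_le_sum_of_subset_of_nonneg (Finset.erase_subset _ _) fun l _ _ => ?_)
    · have hne : l ≠ ⟨i, hi⟩ := (Finset.mem_erase.mp hl).1
      have hne' : (l : ℕ) ≠ i := fun e => hne (Fin.ext e)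
      by_cases hl : (l : ℕ) < i + 1
      · rw [if_pos hl, h l (by omega)]
        simp
      · rw [if_neg hl, abs_mul, abs_of_nonneg (by positivity : (0 : ℤ) ≤ 3 ^ (n - 1 - (l : ℕ)))]
        exact mul_le_mul_of_nonneg_right (abs_sgn_sub_le _ _) (by positivity)
    · split_ifs <;> positivity
  have h3 : |(sgn (w' ⟨i, hi⟩) - sgn (w ⟨i, hi⟩)) * (3 : ℤ) ^ (n - 1 - i)| = 2 * 3 ^ (n - 1 - i) := by
    rw [abs_mul, abs_sgn_sub_of_ne h0, abs_of_nonneg (by positivity)]
  have h4 : n - (i + 1) = n - 1 - i := by omega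
  rw [h4] at h2
  rw [h1]
  have h5 := abs_sub_abs_le_abs_sub ((sgn (w' ⟨i, hi⟩) - sgn (w ⟨i, hi⟩)) * (3 : ℤ) ^ (n - 1 - i))
    (-(∑ l ∈ univ.erase (⟨i, hi⟩ : Fin n), (sgn (w' l) - sgn (w l)) * 3 ^ (n - 1 - (l : ℕ))))
  rw [sub_neg_eq_add, abs_neg, h3] at h5
  linarith

set_option linter.unusedVariables false in
/-- two points of the same cell -/
theorem cell_diam {n k : ℕ} (hk : k ≤ 2 * n) (v v' : ZMod (3 ^ (2 * n)))
    (h : cell n k v = cell n k v') :
    ∃ d : ℤ, v' = v + (d : ZMod (3 ^ (2 * n))) ∧ |(d : ℝ)| ≤ 3 ^ (2 * n - k) := by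
  refine ⟨(v'.val : ℤ) - (v.val : ℤ), ?_, ?_⟩
  · push_cast
    rw [ZMod.natCast_zmod_val, ZMod.natCast_zmod_val]
    ring
  · unfold cell at h
    have hp : 0 < 3 ^ (2 * n - k) := by positivity
    have h1 := Nat.div_add_mod v.val (3 ^ (2 * n - k))
    have h2 := Nat.div_add_mod v'.val (3 ^ (2 * n - k))
    have h3 := Nat.mod_lt v.val hp
    have h4 := Nat.mod_lt v'.val hp
    rw [h] at h1
    have h5 : |((v'.val : ℤ) - (v.val : ℤ) : ℤ)| ≤ ((3 ^ (2 * n - k) : ℕ) : ℤ) := by
      generalize 3 ^ (2 * n - k) = L at *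
      generalize L * (v'.val / L) = q at *
      rw [abs_le]
      constructor <;> omega
    have h6 : (|((v'.val : ℤ) - (v.val : ℤ) : ℤ)| : ℝ) ≤ (((3 ^ (2 * n - k) : ℕ) : ℤ) : ℝ) := by
      exact_mod_cast h5
    push_cast at h6 ⊢
    exact h6

open Classical in
private theorem sum_ind_card {α : Type} [Fintype α] (P : α → Prop) :
    ∑ v, ind (P v) = ((univ.filter P).card : ℝ) := by
  unfold ind
  rw [Finset.sum_boole]

private theorem ind_mono' {p q : Prop} (h : p → q) : ind p ≤ ind q := by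
  unfold ind
  by_cases hp : p
  · rw [if_pos hp, if_pos (h hp)]
  · rw [if_neg hp]
    split_ifs <;> norm_num

private theorem ind_or_le {p q r : Prop} (h : p → q ∨ r) : ind p ≤ ind q + ind r := by
  unfold ind
  by_cases hp : p
  · rcases h hp with hq | hr
    · rw [if_pos hp, if_pos hq]
      split_ifs <;> norm_num
    · rw [if_pos hp, if_pos hr]
      split_ifs <;> norm_num
  · rw [if_neg hp]
    split_ifs <;> norm_num

private theorem shift_one {n k : ℕ} (hk : k ≤ 2 * n) :
    ∑ v : ZMod (3 ^ (2 * n)), ind (cell n k (v + 1) ≠ cell n k v) ≤ 3 ^ k := by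
  classical
  rw [sum_ind_card]
  have hL : 0 < 3 ^ (2 * n - k) := by positivity
  have hM : 3 ^ k * 3 ^ (2 * n - k) = 3 ^ (2 * n) := by
    rw [← pow_add]
    congr 1
    omega
  -- the points whose successor is divisible by the length of the cells
  have key : ∀ v : ZMod (3 ^ (2 * n)), cell n k (v + 1) ≠ cell n k v →
      3 ^ (2 * n - k) ∣ v.val + 1 := by
    intro v hv
    by_contra hnd
    apply hv
    unfold cell
    have hne : v.val + 1 < 3 ^ (2 * n) := by
      have h1 := ZMod.val_lt v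
      rcases Nat.lt_or_ge (v.val + 1) (3 ^ (2 * n)) with h2 | h2
      · exact h2
      · exfalso
        apply hnd
        have h3 : v.val + 1 = 3 ^ (2 * n) := by omega
        rw [h3, ← hM]
        exact Dvd.intro_left _ rfl
    have h1 : (v + 1).val = v.val + 1 := by
      rw [ZMod.val_add_of_lt]
      · rcases Nat.eq_zero_or_pos n with rfl | hn
        · simp at hne
        · rw [ZMod.val_one'']
          have : 1 < 3 ^ (2 * n) := Nat.one_lt_pow (by omega) (by norm_num)
          omega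
      · rcases Nat.eq_zero_or_pos n with rfl | hn
        · simp at hne
        · rw [ZMod.val_one'']
          · exact hne
          · have : 1 < 3 ^ (2 * n) := Nat.one_lt_pow (by omega) (by norm_num)
            omega
    rw [h1]
    exact Nat.succ_div_of_not_dvd hnd
  have hcard : (univ.filter fun v : ZMod (3 ^ (2 * n)) => cell n k (v + 1) ≠ cell n k v).card
      ≤ (range (3 ^ k)).card := by
    refine Finset.card_le_card_of_injOn (fun v => cell n k v) ?_ ?_
    · intro v _
      simp only [Finset.coe_range, Set.mem_Iio]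
      unfold cell
      rw [Nat.div_lt_iff_lt_mul hL, hM]
      exact ZMod.val_lt v
    · intro v hv v' hv' hvv
      simp only [Finset.coe_filter, Finset.mem_univ, true_and, Set.mem_ofPred_eq] at hv hv'
      have h1 := key v hv
      have h2 := key v' hv'
      obtain ⟨a, ha⟩ := h1
      obtain ⟨b, hb⟩ := h2
      simp only [cell] at hvv
      have h3 := Nat.div_add_mod v.val (3 ^ (2 * n - k))
      have h4 := Nat.div_add_mod v'.val (3 ^ (2 * n - k))
      have h5 := Nat.mod_lt v.val hL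
      have h6 := Nat.mod_lt v'.val hL
      apply ZMod.val_injective
      rw [← hvv] at h4
      generalize 3 ^ (2 * n - k) = L at *
      have ha' : a = v.val / L + 1 := by
        have : L * a = L * (v.val / L) + (v.val % L + 1) := by omega
        have hd : L ∣ v.val % L + 1 := by
          have : L ∣ L * (v.val / L) + (v.val % L + 1) := ⟨a, by omega⟩
          exact (Nat.dvd_add_right (Dvd.intro _ rfl)).mp this
        have hle := Nat.le_of_dvd (by omega) hd
        have heq : v.val % L + 1 = L := by omega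
        rw [heq] at this
        have h7 : L * a = L * (v.val / L + 1) := by rw [mul_add, mul_one]; exact this
        exact Nat.eq_of_mul_eq_mul_left hL h7
      have hb' : b = v.val / L + 1 := by
        have : L * b = L * (v.val / L) + (v'.val % L + 1) := by omega
        have hd : L ∣ v'.val % L + 1 := by
          have : L ∣ L * (v.val / L) + (v'.val % L + 1) := ⟨b, by omega⟩
          exact (Nat.dvd_add_right (Dvd.intro _ rfl)).mp this
        have hle := Nat.le_of_dvd (by omega) hd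
        have heq : v'.val % L + 1 = L := by omega
        rw [heq] at this
        have h7 : L * b = L * (v.val / L + 1) := by rw [mul_add, mul_one]; exact this
        exact Nat.eq_of_mul_eq_mul_left hL h7
      rw [ha'] at ha
      rw [hb'] at hb
      omega
  rw [Finset.card_range] at hcard
  have h9 : ((univ.filter fun v : ZMod (3 ^ (2 * n)) => cell n k (v + 1) ≠ cell n k v).card : ℝ)
      ≤ ((3 ^ k : ℕ) : ℝ) := Nat.cast_le.mpr hcard
  rw [Nat.cast_pow, Nat.cast_ofNat] at h9
  convert h9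

private theorem shift_nat {n k : ℕ} (hk : k ≤ 2 * n) (d : ℕ) :
    ∑ v : ZMod (3 ^ (2 * n)), ind (cell n k (v + (d : ZMod (3 ^ (2 * n)))) ≠ cell n k v)
      ≤ (d : ℝ) * 3 ^ k := by
  induction d with
  | zero =>
    rw [Nat.cast_zero, Nat.cast_zero, zero_mul]
    refine le_of_eq (Finset.sum_eq_zero fun v _ => ?_)
    rw [add_zero]
    unfold ind
    rw [if_neg (fun h => h rfl)]
  | succ m ih =>
    have h1 : ∑ v : ZMod (3 ^ (2 * n)),
        ind (cell n k (v + ((m + 1 : ℕ) : ZMod (3 ^ (2 * n)))) ≠ cell n k v)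
        ≤ ∑ v : ZMod (3 ^ (2 * n)), (ind (cell n k ((v + (m : ZMod (3 ^ (2 * n)))) + 1)
            ≠ cell n k (v + (m : ZMod (3 ^ (2 * n)))))
          + ind (cell n k (v + (m : ZMod (3 ^ (2 * n)))) ≠ cell n k v)) := by
      refine Finset.sum_le_sum fun v _ => ind_or_le fun h => ?_
      by_contra hcon
      rw [not_or, not_not, not_not] at hcon
      apply h
      rw [← hcon.2, ← hcon.1]
      push_cast
      rw [add_assoc]
    rw [Finset.sum_add_distrib] at h1
    have h2 : ∑ v : ZMod (3 ^ (2 * n)), ind (cell n k ((v + (m : ZMod (3 ^ (2 * n)))) + 1)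
            ≠ cell n k (v + (m : ZMod (3 ^ (2 * n)))))
        = ∑ v : ZMod (3 ^ (2 * n)), ind (cell n k (v + 1) ≠ cell n k v) :=
      Equiv.sum_comp (Equiv.addRight ((m : ZMod (3 ^ (2 * n)))))
        (fun v => ind (cell n k (v + 1) ≠ cell n k v))
    rw [h2] at h1
    have h3 := shift_one (n := n) hk
    push_cast at h1 ⊢
    linarith

/-- how many points change their cell under a shift -/
theorem cell_shift_card {n k : ℕ} (hk : k ≤ 2 * n) (d : ℤ) :
    ∑ v : ZMod (3 ^ (2 * n)), ind (cell n k (v + (d : ZMod (3 ^ (2 * n)))) ≠ cell n k v)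
      ≤ |(d : ℝ)| * 3 ^ k := by
  obtain ⟨m, rfl | rfl⟩ := Int.eq_nat_or_neg d
  · have := shift_nat (n := n) hk m
    simpa using this
  · have h1 := shift_nat (n := n) hk m
    have h2 : ∑ v : ZMod (3 ^ (2 * n)),
        ind (cell n k (v + ((-(m : ℤ) : ℤ) : ZMod (3 ^ (2 * n)))) ≠ cell n k v)
        = ∑ v : ZMod (3 ^ (2 * n)), ind (cell n k (v + (m : ZMod (3 ^ (2 * n)))) ≠ cell n k v) := by
      rw [← Equiv.sum_comp (Equiv.addRight ((m : ZMod (3 ^ (2 * n)))))]
      refine Finset.sum_congr rfl fun v _ => ?_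
      simp only [Equiv.coe_addRight]
      have : v + (m : ZMod (3 ^ (2 * n))) + ((-(m : ℤ) : ℤ) : ZMod (3 ^ (2 * n))) = v := by
        push_cast
        ring
      rw [this]
      congr 1
      exact propext ⟨fun h => Ne.symm h, fun h => Ne.symm h⟩
    rw [h2]
    simpa using h1

end Pool.Agent.helper32.Cant
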