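import Pool.Agent.helper32.Cant.Defs

set_option autoImplicit false

/-!
# Module UB: approximate invariance implies uniformity (deterministic)
-/

namespace Pool.Agent.helper32.Cant

open Finset

/-- the points near the ends of their cell of level `k + 1` -/
def edge (n k h : ℕ) (v : ZMod (3 ^ (2 * n))) : Prop :=
  v.val % 3 ^ (2 * n - k - 1) < 3 ^ (2 * n - k - h) ∨
    3 ^ (2 * n - k - 1) - v.val % 3 ^ (2 * n - k - 1) < 3 ^ (2 * n - k - h)

private theorem ub_ind_nonneg (p : Prop) : 0 ≤ ind p := by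
  unfold ind; split_ifs <;> norm_num

private theorem ub_ind_le_one (p : Prop) : ind p ≤ 1 := by
  unfold ind; split_ifs <;> norm_num

private theorem ub_ind_of {p : Prop} (h : p) : ind p = 1 := by
  unfold ind; rw [if_pos h]

private theorem ub_ind_of_not {p : Prop} (h : ¬ p) : ind p = 0 := by
  unfold ind; rw [if_neg h]

open Classical in
private theorem ub_sum_ind {α : Type} [Fintype α] (P : α → Prop) :
    ∑ v, ind (P v) = ((univ.filter P).card : ℝ) := by
  unfold ind
  rw [Finset.sum_boole]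

theorem edge_card {n k h : ℕ} (hh : 2 ≤ h) (hk : k + h ≤ 2 * n) :
    ∑ v : ZMod (3 ^ (2 * n)), ind (edge n k h v) ≤ 6 / 3 ^ h * 3 ^ (2 * n) := by
  classical
  rw [ub_sum_ind]
  set L := 3 ^ (2 * n - k - 1) with hLdef
  set b := 3 ^ (2 * n - k - h) with hbdef
  have hL : 0 < L := by positivity
  have hM : 3 ^ (k + 1) * L = 3 ^ (2 * n) := by
    rw [hLdef, ← pow_add]
    congr 1
    omega
  have hcard : (univ.filter fun v : ZMod (3 ^ (2 * n)) => edge n k h v).card
      ≤ (range (3 ^ (k + 1)) ×ˢ (range b ∪ Ico (L - b) L)).card := by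
    refine Finset.card_le_card_of_injOn (fun v => (v.val / L, v.val % L)) ?_ ?_
    · intro v hv
      simp only [Finset.coe_filter, Finset.mem_univ, true_and, Set.mem_ofPred_eq] at hv
      simp only [Finset.coe_product, Set.mem_prod, Finset.mem_coe, Finset.mem_range,
        Finset.mem_union, Finset.mem_Ico]
      refine ⟨?_, ?_⟩
      · rw [Nat.div_lt_iff_lt_mul hL, hM]
        exact ZMod.val_lt v
      · have h1 := Nat.mod_lt v.val hL
        unfold edge at hv
        rw [← hLdef, ← hbdef] at hv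
        rcases hv with hv | hv
        · exact Or.inl hv
        · right
          omega
    · intro v _ v' _ hvv
      simp only [Prod.mk.injEq] at hvv
      apply ZMod.val_injective
      rw [← Nat.div_add_mod v.val L, ← Nat.div_add_mod v'.val L, hvv.1, hvv.2]
  have h2 : (range (3 ^ (k + 1)) ×ˢ (range b ∪ Ico (L - b) L)).card ≤ 3 ^ (k + 1) * (b + b) := by
    rw [Finset.card_product, Finset.card_range]
    refine Nat.mul_le_mul_left _ ((Finset.card_union_le _ _).trans ?_)
    rw [Finset.card_range, Nat.card_Ico]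
    have h9 : ∀ a d : ℕ, a - (a - d) ≤ d := fun a d => by omega
    exact Nat.add_le_add_left (h9 L b) b
  have h3 : 3 ^ (k + 1) * (b + b) * 3 ^ h = 6 * 3 ^ (2 * n) := by
    have : 3 ^ (2 * n) = 3 ^ k * b * 3 ^ h := by
      rw [hbdef, ← pow_add, ← pow_add]
      congr 1
      omega
    rw [this]
    ring
  have h4 : ((univ.filter fun v : ZMod (3 ^ (2 * n)) => edge n k h v).card : ℝ) * 3 ^ h
      ≤ 6 * 3 ^ (2 * n) := by
    have h5 : (univ.filter fun v : ZMod (3 ^ (2 * n)) => edge n k h v).card * 3 ^ h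
        ≤ 6 * 3 ^ (2 * n) := by
      rw [← h3]
      exact Nat.mul_le_mul_right _ (hcard.trans h2)
    exact_mod_cast h5
  have h6 : (6 : ℝ) / 3 ^ h * 3 ^ (2 * n) = 6 * 3 ^ (2 * n) / 3 ^ h := by ring
  rw [h6, le_div_iff₀ (by positivity)]
  convert h4

/-! ### steps in `ZMod M` -/

private theorem ub_succ {M L : ℕ} [NeZero M] (hLM : L ∣ M) (hL : 0 < L) (hM : 1 < M)
    (v : ZMod M) :
    ((v + 1).val / L = v.val / L ∧ (v + 1).val % L = v.val % L + 1) ∨
      ((v + 1).val % L = 0 ∧ v.val % L + 1 = L) := by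
  have h1 := ZMod.val_lt v
  have hdm := Nat.div_add_mod v.val L
  have hml := Nat.mod_lt v.val hL
  rcases Nat.lt_or_ge (v.val + 1) M with h2 | h2
  · have h3 : (v + 1).val = v.val + 1 := by
      rw [ZMod.val_add_of_lt]
      · rw [ZMod.val_one'' (by omega)]
      · rw [ZMod.val_one'' (by omega)]
        exact h2
    rw [h3]
    rcases Nat.lt_or_ge (v.val % L + 1) L with h4 | h4
    · left
      have h5 : v.val + 1 = L * (v.val / L) + (v.val % L + 1) := by omega
      rw [h5, Nat.mul_add_div hL, Nat.mul_add_mod, Nat.div_eq_of_lt h4, Nat.mod_eq_of_lt h4]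
      exact ⟨by rw [add_zero], rfl⟩
    · right
      have h5 : v.val % L + 1 = L := by omega
      refine ⟨?_, h5⟩
      have h6 : v.val + 1 = L * (v.val / L + 1) := by rw [mul_add, mul_one]; omega
      rw [h6, Nat.mul_mod_right]
  · right
    have h3 : v.val + 1 = M := by omega
    have h4 : (v + 1).val = 0 := by
      rw [ZMod.val_eq_zero]
      have : ((v.val + 1 : ℕ) : ZMod M) = 0 := by rw [h3, ZMod.natCast_self]
      rw [Nat.cast_add, Nat.cast_one, ZMod.natCast_zmod_val] at this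
      exact this
    refine ⟨by rw [h4, Nat.zero_mod], ?_⟩
    have h5 : L ∣ L * (v.val / L) + (v.val % L + 1) := by
      have h6 : L * (v.val / L) + (v.val % L + 1) = M := by omega
      rw [h6]
      exact hLM
    have h7 := (Nat.dvd_add_right (Dvd.intro _ rfl)).mp h5
    have h8 := Nat.le_of_dvd (by omega) h7
    omega

private theorem ub_shift {M L : ℕ} [NeZero M] (hLM : L ∣ M) (hL : 0 < L) (v : ZMod M) :
    (v + (L : ZMod M)).val % L = v.val % L ∧
      ((v + (L : ZMod M)).val / L = v.val / L + 1 ∨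
        ((v + (L : ZMod M)).val / L = 0 ∧ v.val / L + 1 = M / L)) := by
  have h1 := ZMod.val_lt v
  have hMpos : 0 < M := by omega
  have h0 : (v + (L : ZMod M)).val = (v.val + L) % M := by
    rw [ZMod.val_add, ZMod.val_natCast, Nat.add_mod_mod]
  rw [h0]
  refine ⟨?_, ?_⟩
  · rw [Nat.mod_mod_of_dvd _ hLM, Nat.add_mod_right]
  · rcases Nat.lt_or_ge (v.val + L) M with h2 | h2
    · left
      rw [Nat.mod_eq_of_lt h2, Nat.add_div_right _ hL]
    · right
      obtain ⟨m, hm⟩ := hLM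
      have hLM' : L ≤ M := by
        rw [hm]
        refine Nat.le_mul_of_pos_right L ?_
        rcases Nat.eq_zero_or_pos m with h | h
        · rw [h] at hm; omega
        · exact h
      have h3 : (v.val + L) % M = v.val + L - M := by
        rw [Nat.mod_eq_sub_mod h2, Nat.mod_eq_of_lt (by omega)]
      refine ⟨?_, ?_⟩
      · rw [h3]
        exact Nat.div_eq_of_lt (by omega)
      · have h4 : M / L = m := by rw [hm, Nat.mul_div_cancel_left _ hL]
        rw [h4, ← Nat.add_div_right _ hL]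
        refine Nat.div_eq_of_lt_le ?_ ?_
        · rw [Nat.mul_comm, ← hm]
          exact h2
        · rw [Nat.mul_comm, Nat.mul_add, ← hm]
          omega

/-! ### Lipschitz functions -/

private theorem ub_lip_of_succ {M : ℕ} {Λ : ℝ} {g : ZMod M → ℝ}
    (hb : ∀ v, |g v| ≤ 1) (h1 : ∀ v, |g (v + 1) - g v| ≤ Λ) : Lip Λ g := by
  refine ⟨hb, ?_⟩
  have hnat : ∀ (m : ℕ) (v : ZMod M), |g (v + (m : ZMod M)) - g v| ≤ Λ * m := by
    intro m
    induction m with
    | zero => intro v; simp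
    | succ m ih =>
      intro v
      have h2 := ih v
      have h3 := h1 (v + (m : ZMod M))
      have h4 : v + ((m + 1 : ℕ) : ZMod M) = v + (m : ZMod M) + 1 := by push_cast; ring
      rw [h4]
      have h5 := abs_add_le (g (v + (m : ZMod M) + 1) - g (v + (m : ZMod M)))
        (g (v + (m : ZMod M)) - g v)
      rw [sub_add_sub_cancel] at h5
      push_cast
      linarith
  intro v h
  obtain ⟨m, rfl | rfl⟩ := Int.eq_nat_or_neg h
  · have := hnat m v
    simpa using this
  · have h2 := hnat m (v + ((-(m : ℤ) : ℤ) : ZMod M))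
    have h3 : v + ((-(m : ℤ) : ℤ) : ZMod M) + (m : ZMod M) = v := by push_cast; ring
    rw [h3, abs_sub_comm] at h2
    have h4 : |((-(m : ℤ) : ℤ) : ℝ)| = (m : ℝ) := by
      push_cast
      rw [abs_neg, abs_of_nonneg (by positivity)]
    rw [h4]
    exact h2

private theorem ub_lip_translate {M : ℕ} {Λ : ℝ} {g : ZMod M → ℝ} (hg : Lip Λ g) (a : ZMod M) :
    Lip Λ (fun v => g (v + a)) := by
  refine ⟨fun v => hg.1 _, fun v h => ?_⟩
  have := hg.2 (v + a) h
  have h2 : v + (h : ZMod M) + a = v + a + (h : ZMod M) := by ring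
  show |g (v + (h : ZMod M) + a) - g (v + a)| ≤ _
  rw [h2]
  exact this

/-- the tent with a flat top -/
private noncomputable def ubpsi (Λ : ℝ) (L p : ℕ) : ℝ := min 1 (Λ * min (p : ℝ) ((L : ℝ) - p))

private theorem ubpsi_nonneg {Λ : ℝ} (hΛ : 0 ≤ Λ) {L p : ℕ} (hp : p ≤ L) : 0 ≤ ubpsi Λ L p := by
  unfold ubpsi
  have h1 : (0 : ℝ) ≤ (L : ℝ) - p := by
    have : (p : ℝ) ≤ (L : ℝ) := by exact_mod_cast hp
    linarith
  exact le_min zero_le_one (mul_nonneg hΛ (le_min (Nat.cast_nonneg _) h1))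

private theorem ubpsi_le_one (Λ : ℝ) (L p : ℕ) : ubpsi Λ L p ≤ 1 := min_le_left _ _

private theorem ubpsi_zero {Λ : ℝ} (L : ℕ) : ubpsi Λ L 0 = 0 := by
  unfold ubpsi
  rw [Nat.cast_zero, sub_zero, min_eq_left (Nat.cast_nonneg _), mul_zero]
  exact min_eq_right zero_le_one

private theorem ubpsi_last {Λ : ℝ} (hΛ : 0 ≤ Λ) {L p : ℕ} (hp : p + 1 = L) :
    ubpsi Λ L p ≤ Λ := by
  unfold ubpsi
  have h1 : (L : ℝ) - p = 1 := by rw [← hp]; push_cast; ring
  refine (min_le_right _ _).trans ?_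
  rw [h1]
  have := min_le_right (p : ℝ) 1
  nlinarith

private theorem ubpsi_step {Λ : ℝ} (hΛ : 0 ≤ Λ) (L p : ℕ) :
    |ubpsi Λ L (p + 1) - ubpsi Λ L p| ≤ Λ := by
  unfold ubpsi
  push_cast
  have h1 : |min (p : ℝ) ((L : ℝ) - p) - min ((p : ℝ) + 1) ((L : ℝ) - (p + 1))| ≤ 1 := by
    rw [abs_le]
    rcases le_total (p : ℝ) ((L : ℝ) - p) with h | h <;>
    rcases le_total ((p : ℝ) + 1) ((L : ℝ) - (p + 1)) with h' | h' <;>
    simp only [min_eq_left, min_eq_right, h, h'] <;> constructor <;> linarith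
  have h2 : |Λ * min (p : ℝ) ((L : ℝ) - p) - Λ * min ((p : ℝ) + 1) ((L : ℝ) - (p + 1))| ≤ Λ := by
    rw [← mul_sub, abs_mul, abs_of_nonneg hΛ]
    nlinarith
  rw [abs_sub_comm]
  refine le_trans ?_ h2
  rw [abs_le]
  generalize Λ * min (p : ℝ) ((L : ℝ) - p) = x
  generalize Λ * min ((p : ℝ) + 1) ((L : ℝ) - (p + 1)) = y
  have h3 := neg_abs_le (x - y)
  have h4 := le_abs_self (x - y)
  have h5 := abs_nonneg (x - y)
  rcases le_total 1 x with h | h <;> rcases le_total 1 y with h' | h' <;>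
  simp only [min_eq_left, min_eq_right, h, h'] <;> constructor <;> linarith

/-- the test functions -/
private theorem ub_test_lip {M L : ℕ} [NeZero M] (hLM : L ∣ M) (hL : 0 < L) (hM : 1 < M)
    {Λ : ℝ} (hΛ : 0 ≤ Λ) (S : ℕ → ℝ) (hS : ∀ c, |S c| ≤ 1) :
    Lip Λ (fun v : ZMod M => S (v.val / L) * ubpsi Λ L (v.val % L)) := by
  have hpsi : ∀ v : ZMod M, 0 ≤ ubpsi Λ L (v.val % L) := fun v =>
    ubpsi_nonneg hΛ (Nat.mod_lt _ hL).le
  refine ub_lip_of_succ ?_ ?_
  · intro v
    rw [abs_mul, abs_of_nonneg (hpsi v)]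
    have h1 := ubpsi_le_one Λ L (v.val % L)
    have h2 := hS (v.val / L)
    have h3 := hpsi v
    have h4 := abs_nonneg (S (v.val / L))
    nlinarith
  · intro v
    rcases ub_succ hLM hL hM v with ⟨h1, h2⟩ | ⟨h1, h2⟩
    · simp only [h1, h2]
      rw [← mul_sub, abs_mul]
      have h3 := ubpsi_step hΛ L (v.val % L)
      have h4 := hS (v.val / L)
      have h5 := abs_nonneg (S (v.val / L))
      have h6 := abs_nonneg (ubpsi Λ L (v.val % L + 1) - ubpsi Λ L (v.val % L))
      nlinarith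
    · simp only [h1, ubpsi_zero, mul_zero, zero_sub, abs_neg]
      rw [abs_mul, abs_of_nonneg (hpsi v)]
      have h3 := ubpsi_last hΛ h2
      have h4 := hS (v.val / L)
      have h5 := abs_nonneg (S (v.val / L))
      have h6 := hpsi v
      nlinarith

/-- iterating the approximate invariance -/
private theorem ub_iterate {M : ℕ} [NeZero M] {Λ X : ℝ} (π : ZMod M → ℝ) (θ : ℕ)
    (hX : ∀ g : ZMod M → ℝ, Lip Λ g →
      |∑ v, π v * g (v + (θ : ZMod M)) - ∑ v, π v * g v| ≤ X) (N : ℕ) :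
    ∀ g : ZMod M → ℝ, Lip Λ g →
      |∑ v, π v * g (v + ((N * θ : ℕ) : ZMod M)) - ∑ v, π v * g v| ≤ N * X := by
  induction N with
  | zero =>
    intro g _
    simp
  | succ N ih =>
    intro g hg
    have h1 := ih g hg
    have h2 := hX (fun v => g (v + ((N * θ : ℕ) : ZMod M))) (ub_lip_translate hg _)
    have h3 : ∀ v : ZMod M, v + (((N + 1) * θ : ℕ) : ZMod M)
        = v + (θ : ZMod M) + ((N * θ : ℕ) : ZMod M) := by
      intro v; push_cast; ring
    simp only [h3]
    have h5 := abs_add_le (∑ v, π v * g (v + (θ : ZMod M) + ((N * θ : ℕ) : ZMod M))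
      - ∑ v, π v * g (v + ((N * θ : ℕ) : ZMod M)))
      (∑ v, π v * g (v + ((N * θ : ℕ) : ZMod M)) - ∑ v, π v * g v)
    rw [sub_add_sub_cancel] at h5
    push_cast at h1 h2 h5 ⊢
    linarith

/-- the exact shift by `L`, a multiple of `θ` up to an error at most `θ` -/
private theorem ub_shift_bound {M : ℕ} [NeZero M] {Λ X : ℝ} (hΛ : 0 ≤ Λ) (π : ZMod M → ℝ)
    (hπ : IsProb π) (θ L : ℕ) (hθ : 0 < θ)
    (hX : ∀ g : ZMod M → ℝ, Lip Λ g →
      |∑ v, π v * g (v + (θ : ZMod M)) - ∑ v, π v * g v| ≤ X) (g : ZMod M → ℝ)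
    (hg : Lip Λ g) :
    |∑ v, π v * g (v + (L : ZMod M)) - ∑ v, π v * g v| ≤ (L / θ : ℕ) * X + Λ * θ := by
  have h1 := ub_iterate π θ hX (L / θ) g hg
  have h2 : |∑ v, π v * g (v + (L : ZMod M)) - ∑ v, π v * g (v + ((L / θ * θ : ℕ) : ZMod M))|
      ≤ Λ * θ := by
    rw [← Finset.sum_sub_distrib]
    refine (Finset.abs_sum_le_sum_abs _ _).trans ?_
    have h3 : ∀ v ∈ (univ : Finset (ZMod M)),
        |π v * g (v + (L : ZMod M)) - π v * g (v + ((L / θ * θ : ℕ) : ZMod M))|
          ≤ π v * (Λ * θ) := by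
      intro v _
      rw [← mul_sub, abs_mul, abs_of_nonneg (hπ.1 v)]
      refine mul_le_mul_of_nonneg_left ?_ (hπ.1 v)
      have h4 := hg.2 (v + ((L / θ * θ : ℕ) : ZMod M)) ((L % θ : ℕ) : ℤ)
      have h5 : v + ((L / θ * θ : ℕ) : ZMod M) + (((L % θ : ℕ) : ℤ) : ZMod M)
          = v + (L : ZMod M) := by
        have h6 : (L : ZMod M) = ((L / θ * θ + L % θ : ℕ) : ZMod M) := by
          rw [Nat.div_add_mod']
        rw [h6, Int.cast_natCast, Nat.cast_add, add_assoc]
      rw [h5] at h4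
      refine h4.trans (mul_le_mul_of_nonneg_left ?_ hΛ)
      rw [Int.cast_natCast, abs_of_nonneg (Nat.cast_nonneg _)]
      exact_mod_cast (Nat.mod_lt L hθ).le
    refine (Finset.sum_le_sum h3).trans ?_
    rw [← Finset.sum_mul, hπ.2, one_mul]
  have h5 := abs_add_le
    (∑ v, π v * g (v + (L : ZMod M)) - ∑ v, π v * g (v + ((L / θ * θ : ℕ) : ZMod M)))
    (∑ v, π v * g (v + ((L / θ * θ : ℕ) : ZMod M)) - ∑ v, π v * g v)
  rw [sub_add_sub_cancel] at h5
  linarith

private theorem ub_sum_three (f : ℕ → ℝ) (m : ℕ) :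
    ∑ c ∈ range (3 * m), f c = ∑ t ∈ range m, (f (3 * t) + f (3 * t + 1) + f (3 * t + 2)) := by
  induction m with
  | zero => simp
  | succ m ih =>
    have h : 3 * (m + 1) = 3 * m + 1 + 1 + 1 := by ring
    rw [h, Finset.sum_range_succ, Finset.sum_range_succ, Finset.sum_range_succ, ih,
      Finset.sum_range_succ]
    have h2 : 3 * m + 1 + 1 = 3 * m + 2 := by ring
    rw [h2]
    ring

/-- grouping a sum according to the cells -/
private theorem ub_group {M L K : ℕ} [NeZero M] (hK : ∀ v : ZMod M, v.val / L < K)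
    (f : ZMod M → ℝ) (S : ℕ → ℝ) :
    ∑ v : ZMod M, f v * S (v.val / L)
      = ∑ c ∈ range K, S c * ∑ v : ZMod M, f v * ind (v.val / L = c) := by
  have h1 : ∀ v : ZMod M, f v * S (v.val / L)
      = ∑ c ∈ range K, S c * (f v * ind (v.val / L = c)) := by
    intro v
    rw [Finset.sum_eq_single (v.val / L)]
    · rw [ub_ind_of rfl]; ring
    · intro c _ hc
      rw [ub_ind_of_not (fun h => hc h.symm)]; ring
    · intro h
      exact absurd (Finset.mem_range.mpr (hK v)) h
  simp only [h1]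
  rw [Finset.sum_comm]
  refine Finset.sum_congr rfl fun c _ => ?_
  rw [Finset.mul_sum]

/-- the deterministic core: the tent masses of neighbouring children are close -/
private theorem ub_core {M L m : ℕ} [NeZero M] (hL : 0 < L) (hM : 1 < M) (hML : M = 3 * m * L)
    {Λ Y : ℝ} (hΛ : 0 ≤ Λ) (π : ZMod M → ℝ)
    (hY : ∀ g : ZMod M → ℝ, Lip Λ g →
      |∑ v, π v * g (v + (L : ZMod M)) - ∑ v, π v * g v| ≤ Y) :
    ∑ t ∈ range m, ∑ a ∈ range 2,
        |∑ v, π v * ubpsi Λ L (v.val % L) * ind (v.val / L = 3 * t + a)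
          - ∑ v, π v * ubpsi Λ L (v.val % L) * ind (v.val / L = 3 * t + a + 1)| ≤ Y := by
  set P : ℕ → ℝ := fun c => ∑ v, π v * ubpsi Λ L (v.val % L) * ind (v.val / L = c) with hP
  have hLM : L ∣ M := ⟨3 * m, by rw [hML]; ring⟩
  have hdiv : M / L = 3 * m := by rw [hML, Nat.mul_div_cancel _ hL]
  have hK : ∀ v : ZMod M, v.val / L < 3 * m := by
    intro v
    rw [Nat.div_lt_iff_lt_mul hL, ← hML]
    exact ZMod.val_lt v
  -- the signs
  set S : ℕ → ℝ := fun c => if c % 3 = 0 then 0 else SignType.sign (P c - P (c - 1)) with hS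
  have hS1 : ∀ c, |S c| ≤ 1 := by
    intro c
    simp only [hS]
    split_ifs
    · simp
    · rcases lt_trichotomy (P c - P (c - 1)) 0 with h | h | h
      · rw [sign_neg h]; simp
      · rw [h]; simp
      · rw [sign_pos h]; simp
  have hlip := ub_test_lip hLM hL hM hΛ S hS1
  have h1 := hY _ hlip
  have h2 : ∀ v : ZMod M, π v * (S ((v + (L : ZMod M)).val / L)
      * ubpsi Λ L ((v + (L : ZMod M)).val % L))
      = (π v * ubpsi Λ L (v.val % L)) * (fun c => S (c + 1)) (v.val / L) := by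
    intro v
    obtain ⟨h3, h4⟩ := ub_shift hLM hL v
    rw [h3]
    rcases h4 with h4 | ⟨h4, h5⟩
    · rw [h4]; simp only; ring
    · rw [h4]
      simp only
      rw [h5, hdiv]
      have h6 : S 0 = 0 := by simp [hS]
      have h7 : S (3 * m) = 0 := by simp [hS]
      rw [h6, h7]; ring
  have h3 : ∀ v : ZMod M, π v * (S (v.val / L) * ubpsi Λ L (v.val % L))
      = (π v * ubpsi Λ L (v.val % L)) * S (v.val / L) := by
    intro v; ring
  simp only [h2, h3] at h1
  have g1 := ub_group hK (fun v => π v * ubpsi Λ L (v.val % L)) (fun c => S (c + 1))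
  have g2 := ub_group hK (fun v => π v * ubpsi Λ L (v.val % L)) S
  rw [g1, g2, ub_sum_three, ub_sum_three, ← Finset.sum_sub_distrib] at h1
  clear g1 g2
  refine le_trans (le_of_eq ?_) ((neg_le_abs _).trans h1)
  rw [← Finset.sum_neg_distrib]
  refine Finset.sum_congr rfl fun t _ => ?_
  rw [Finset.sum_range_succ, Finset.sum_range_succ, Finset.sum_range_zero, zero_add, add_zero]
  have e0 : S (3 * t) = 0 := by simp [hS]
  have e3 : S (3 * t + 2 + 1) = 0 := by
    have : (3 * t + 2 + 1) % 3 = 0 := by omega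
    simp only [hS]
    rw [if_pos this]
  have e1 : S (3 * t + 1) = SignType.sign (P (3 * t + 1) - P (3 * t)) := by
    have : (3 * t + 1) % 3 ≠ 0 := by omega
    simp only [hS]
    rw [if_neg this]
    rfl
  have e2 : S (3 * t + 1 + 1) = SignType.sign (P (3 * t + 1 + 1) - P (3 * t + 1)) := by
    have : (3 * t + 1 + 1) % 3 ≠ 0 := by omega
    simp only [hS]
    rw [if_neg this]
    rfl
  have e2' : S (3 * t + 2) = S (3 * t + 1 + 1) := rfl
  rw [e0, e3, e2', e2, e1]
  have f1 : ∀ x : ℝ, |x| = SignType.sign x * x := fun x => (sign_mul_self x).symm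
  have g0 : ∑ v, π v * ubpsi Λ L (v.val % L) * ind (v.val / L = 3 * t) = P (3 * t) := rfl
  have g1 : ∑ v, π v * ubpsi Λ L (v.val % L) * ind (v.val / L = 3 * t + 1) = P (3 * t + 1) := rfl
  have g2 : ∑ v, π v * ubpsi Λ L (v.val % L) * ind (v.val / L = 3 * t + 2)
    = P (3 * t + 1 + 1) := rfl
  rw [g0, g1, g2, abs_sub_comm (P (3 * t)) (P (3 * t + 1)),
    abs_sub_comm (P (3 * t + 1)) (P (3 * t + 1 + 1)), f1 (P (3 * t + 1) - P (3 * t)),
    f1 (P (3 * t + 1 + 1) - P (3 * t + 1))]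
  ring

theorem uniform_bound {n k h q : ℕ} (hh : 2 ≤ h) (hk : k + 2 * h + q + 1 ≤ 2 * n)
    (π : ZMod (3 ^ (2 * n)) → ℝ) (hπ : IsProb π) (s s' : ℤ) (X : ℝ)
    (hs : (3 : ℝ) ^ (2 * n - k - 2 * h - q - 1) ≤ |((s - s' : ℤ) : ℝ)|)
    (hs' : |((s - s' : ℤ) : ℝ)| ≤ 2 * 3 ^ (2 * n - k - 2 * h))
    (hX : ∀ g : ZMod (3 ^ (2 * n)) → ℝ, Lip ((3 : ℝ) ^ h / 3 ^ (2 * n - k)) g →
      |∑ v, π v * g (v + (s : ZMod (3 ^ (2 * n)))) - ∑ v, π v * g (v + (s' : ZMod (3 ^ (2 * n))))|
        ≤ X) :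
    ∑ t ∈ range (3 ^ k), ∑ a ∈ range 2,
        |∑ v, π v * ind (cell n (k + 1) v = 3 * t + a)
          - ∑ v, π v * ind (cell n (k + 1) v = 3 * t + a + 1)|
      ≤ 2 * (3 ^ (2 * h + q) * X + 2 / 3 ^ h) + 2 * ∑ v, π v * ind (edge n k h v) := by
  set L := 3 ^ (2 * n - k - 1) with hLdef
  have hL : 0 < L := by positivity
  have hM : 1 < 3 ^ (2 * n) := Nat.one_lt_pow (by omega) (by norm_num)
  have hML : 3 ^ (2 * n) = 3 * 3 ^ k * L := by
    rw [hLdef, mul_assoc, ← pow_add, ← pow_succ']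
    congr 1
    omega
  have hΛ : (0 : ℝ) ≤ (3 : ℝ) ^ h / 3 ^ (2 * n - k) := by positivity
  obtain ⟨θ, hθ⟩ : ∃ θ : ℕ, θ = (s - s').natAbs := ⟨_, rfl⟩
  have hθabs : |((s - s' : ℤ) : ℝ)| = (θ : ℝ) := by
    rw [hθ, ← Int.cast_abs, Int.abs_eq_natAbs, Int.cast_natCast]
  rw [hθabs] at hs hs'
  have hθpos : 0 < θ := by
    have : (0 : ℝ) < θ := lt_of_lt_of_le (by positivity) hs
    exact_mod_cast this
  have hX0 : 0 ≤ X := by
    have := hX (fun _ => 0) ⟨fun _ => by simp, fun _ _ => by simp; positivity⟩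
    exact (abs_nonneg _).trans this
  -- approximate invariance under `θ`
  have hinv : ∀ g : ZMod (3 ^ (2 * n)) → ℝ, Lip ((3 : ℝ) ^ h / 3 ^ (2 * n - k)) g →
      |∑ v, π v * g (v + (θ : ZMod (3 ^ (2 * n)))) - ∑ v, π v * g v| ≤ X := by
    intro g hg
    rcases Int.natAbs_eq (s - s') with h1 | h1
    · have h2 := hX (fun v => g (v + ((-s' : ℤ) : ZMod (3 ^ (2 * n))))) (ub_lip_translate hg _)
      have h3 : ∀ v : ZMod (3 ^ (2 * n)), v + (s : ZMod (3 ^ (2 * n)))
          + ((-s' : ℤ) : ZMod (3 ^ (2 * n))) = v + (θ : ZMod (3 ^ (2 * n))) := by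
        intro v
        rw [hθ]
        have : (((s - s').natAbs : ℕ) : ZMod (3 ^ (2 * n)))
            = ((((s - s').natAbs : ℕ) : ℤ) : ZMod (3 ^ (2 * n))) := by rw [Int.cast_natCast]
        rw [this, ← h1]
        push_cast
        ring
      have h4 : ∀ v : ZMod (3 ^ (2 * n)), v + (s' : ZMod (3 ^ (2 * n)))
          + ((-s' : ℤ) : ZMod (3 ^ (2 * n))) = v := by
        intro v
        push_cast
        ring
      simp only [h3, h4] at h2
      exact h2
    · have h2 := hX (fun v => g (v + ((-s : ℤ) : ZMod (3 ^ (2 * n))))) (ub_lip_translate hg _)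
      have h3 : ∀ v : ZMod (3 ^ (2 * n)), v + (s' : ZMod (3 ^ (2 * n)))
          + ((-s : ℤ) : ZMod (3 ^ (2 * n))) = v + (θ : ZMod (3 ^ (2 * n))) := by
        intro v
        rw [hθ]
        have : (((s - s').natAbs : ℕ) : ZMod (3 ^ (2 * n)))
            = ((((s - s').natAbs : ℕ) : ℤ) : ZMod (3 ^ (2 * n))) := by rw [Int.cast_natCast]
        have h5 : (((s - s').natAbs : ℕ) : ℤ) = s' - s := by linarith
        rw [this, h5]
        push_cast
        ring
      have h4 : ∀ v : ZMod (3 ^ (2 * n)), v + (s : ZMod (3 ^ (2 * n)))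
          + ((-s : ℤ) : ZMod (3 ^ (2 * n))) = v := by
        intro v
        push_cast
        ring
      simp only [h3, h4] at h2
      rw [abs_sub_comm]
      exact h2
  -- approximate invariance under `L`
  have hY : ∀ g : ZMod (3 ^ (2 * n)) → ℝ, Lip ((3 : ℝ) ^ h / 3 ^ (2 * n - k)) g →
      |∑ v, π v * g (v + (L : ZMod (3 ^ (2 * n)))) - ∑ v, π v * g v|
        ≤ 3 ^ (2 * h + q) * X + 2 / 3 ^ h := by
    intro g hg
    refine (ub_shift_bound hΛ π hπ θ L hθpos hinv g hg).trans (add_le_add ?_ ?_)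
    · refine mul_le_mul_of_nonneg_right ?_ hX0
      have h1 : ((L / θ : ℕ) : ℝ) ≤ (L : ℝ) / θ := Nat.cast_div_le
      refine h1.trans ?_
      rw [div_le_iff₀ (by exact_mod_cast hθpos)]
      have h2 : (L : ℝ) = 3 ^ (2 * h + q) * 3 ^ (2 * n - k - 2 * h - q - 1) := by
        rw [hLdef, ← pow_add]
        push_cast
        congr 1
        omega
      rw [h2]
      exact mul_le_mul_of_nonneg_left hs (by positivity)
    · have h1 : (3 : ℝ) ^ (2 * n - k) = 3 ^ (2 * n - k - 2 * h) * (3 ^ h * 3 ^ h) := by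
        rw [← pow_add, ← pow_add]
        congr 1
        omega
      calc (3 : ℝ) ^ h / 3 ^ (2 * n - k) * θ
          ≤ (3 : ℝ) ^ h / 3 ^ (2 * n - k) * (2 * 3 ^ (2 * n - k - 2 * h)) :=
            mul_le_mul_of_nonneg_left hs' hΛ
        _ = 2 / 3 ^ h := by
            rw [h1]
            field_simp
  have hcore := ub_core hL hM hML hΛ π hY
  -- from the tents to the indicators
  set Λ := (3 : ℝ) ^ h / 3 ^ (2 * n - k) with hΛdef
  set Pc : ℕ → ℝ := fun c => ∑ v : ZMod (3 ^ (2 * n)),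
    π v * ubpsi Λ L (v.val % L) * ind (v.val / L = c) with hPc
  set Q : ℕ → ℝ := fun c => ∑ v : ZMod (3 ^ (2 * n)), π v * ind (v.val / L = c) with hQ
  set ed : ℕ → ℝ := fun c => ∑ v : ZMod (3 ^ (2 * n)),
    π v * ind (edge n k h v) * ind (v.val / L = c) with hed
  have hcell : ∀ v : ZMod (3 ^ (2 * n)), cell n (k + 1) v = v.val / L := by
    intro v
    unfold cell
    rw [hLdef, Nat.sub_add_eq]
  have hpsi1 : ∀ v : ZMod (3 ^ (2 * n)), 1 - ubpsi Λ L (v.val % L) ≤ ind (edge n k h v) := by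
    intro v
    by_cases he : edge n k h v
    · rw [ub_ind_of he]
      have := ubpsi_nonneg hΛ (Nat.mod_lt v.val hL).le
      linarith
    · rw [ub_ind_of_not he]
      unfold edge at he
      rw [not_or, not_lt, not_lt, ← hLdef] at he
      obtain ⟨h1, h2⟩ := he
      have h3 := (Nat.mod_lt v.val hL).le
      unfold ubpsi
      have h4 : (3 : ℝ) ^ (2 * n - k - h) ≤ min ((v.val % L : ℕ) : ℝ)
          ((L : ℝ) - ((v.val % L : ℕ) : ℝ)) := by
        refine le_min ?_ ?_
        · exact_mod_cast h1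
        · rw [← Nat.cast_sub h3]
          exact_mod_cast h2
      have h5 : 1 ≤ Λ * min ((v.val % L : ℕ) : ℝ) ((L : ℝ) - ((v.val % L : ℕ) : ℝ)) := by
        have h6 : Λ * 3 ^ (2 * n - k - h) = 1 := by
          have h7 : (3 : ℝ) ^ (2 * n - k) = 3 ^ (2 * n - k - h) * 3 ^ h := by
            rw [← pow_add]
            congr 1
            omega
          rw [hΛdef, h7]
          field_simp
        rw [← h6]
        exact mul_le_mul_of_nonneg_left h4 hΛ
      rw [min_eq_left h5]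
      simp
  have hQP0 : ∀ c, 0 ≤ Q c - Pc c := by
    intro c
    rw [hQ, hPc]
    simp only
    rw [← Finset.sum_sub_distrib]
    refine Finset.sum_nonneg fun v _ => ?_
    have h1 := hπ.1 v
    have h2 := ubpsi_le_one Λ L (v.val % L)
    have h3 := ub_ind_nonneg (v.val / L = c)
    have h4 : π v * ind (v.val / L = c) - π v * ubpsi Λ L (v.val % L) * ind (v.val / L = c)
        = π v * ind (v.val / L = c) * (1 - ubpsi Λ L (v.val % L)) := by ring
    rw [h4]
    exact mul_nonneg (mul_nonneg h1 h3) (by linarith)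
  have hQP1 : ∀ c, Q c - Pc c ≤ ed c := by
    intro c
    rw [hQ, hPc, hed]
    simp only
    rw [← Finset.sum_sub_distrib]
    refine Finset.sum_le_sum fun v _ => ?_
    have h1 := hπ.1 v
    have h3 := ub_ind_nonneg (v.val / L = c)
    have h4 : π v * ind (v.val / L = c) - π v * ubpsi Λ L (v.val % L) * ind (v.val / L = c)
        = π v * ind (v.val / L = c) * (1 - ubpsi Λ L (v.val % L)) := by ring
    have h5 : π v * ind (edge n k h v) * ind (v.val / L = c)
        = π v * ind (v.val / L = c) * ind (edge n k h v) := by ring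
    rw [h4, h5]
    exact mul_le_mul_of_nonneg_left (hpsi1 v) (mul_nonneg h1 h3)
  have hed0 : ∀ c, 0 ≤ ed c := fun c => (hQP0 c).trans (hQP1 c)
  have hedsum : ∑ t ∈ range (3 ^ k), (ed (3 * t) + ed (3 * t + 1) + ed (3 * t + 2))
      = ∑ v, π v * ind (edge n k h v) := by
    rw [← ub_sum_three]
    have hK : ∀ v : ZMod (3 ^ (2 * n)), v.val / L < 3 * 3 ^ k := by
      intro v
      rw [Nat.div_lt_iff_lt_mul hL, ← hML]
      exact ZMod.val_lt v
    have h1 := ub_group hK (fun v => π v * ind (edge n k h v)) (fun _ => 1)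
    simp only [mul_one, one_mul] at h1
    exact h1.symm
  simp only [hcell]
  have hterm : ∀ t ∈ range (3 ^ k), ∑ a ∈ range 2, |Q (3 * t + a) - Q (3 * t + a + 1)|
      ≤ ∑ a ∈ range 2, |Pc (3 * t + a) - Pc (3 * t + a + 1)|
        + 2 * (ed (3 * t) + ed (3 * t + 1) + ed (3 * t + 2)) := by
    intro t _
    rw [Finset.sum_range_succ, Finset.sum_range_succ, Finset.sum_range_zero, zero_add, add_zero,
      Finset.sum_range_succ, Finset.sum_range_succ, Finset.sum_range_zero, zero_add, add_zero]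
    have hgen : ∀ c, |Q c - Q (c + 1)| ≤ |Pc c - Pc (c + 1)| + ed c + ed (c + 1) := by
      intro c
      have a1 := hQP0 c
      have a2 := hQP0 (c + 1)
      have a3 := hQP1 c
      have a4 := hQP1 (c + 1)
      have a5 := neg_abs_le (Pc c - Pc (c + 1))
      have a6 := le_abs_self (Pc c - Pc (c + 1))
      rw [abs_le]
      constructor <;> linarith
    have b0 := hgen (3 * t)
    have b1 := hgen (3 * t + 1)
    have b2 : 3 * t + 1 + 1 = 3 * t + 2 := rfl
    rw [b2] at b1 ⊢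
    have c0 := hed0 (3 * t)
    have c1 := hed0 (3 * t + 1)
    have c2 := hed0 (3 * t + 2)
    linarith
  refine (Finset.sum_le_sum hterm).trans ?_
  rw [Finset.sum_add_distrib, ← Finset.mul_sum, hedsum]
  have hfin : 0 ≤ 3 ^ (2 * h + q) * X + 2 / 3 ^ h := by positivity
  linarith

end Pool.Agent.helper32.Cant
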