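import Pool.Agent.helper44.Cant.GEO

set_option autoImplicit false

/-!
# Module GEO2: few centres are compatible with the translation, the word, the cell of level `k`
and `j ≥ k` digits of the radius
-/

namespace Pool.Agent.helper32.Cant

open Finset

private theorem g2_rep {n : ℕ} (c : Cfg n) (y : Sp n) :
    ∃ m : ℤ, ((uu c y).val : ℤ) = yi c y.1 + (y.2.val : ℤ) + 3 ^ (2 * n) * m := by
  have h1 : ((((uu c y).val : ℤ) - (yi c y.1 + (y.2.val : ℤ)) : ℤ) : ZMod (3 ^ (2 * n))) = 0 := by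
    rw [Int.cast_sub, Int.cast_add, Int.cast_natCast, Int.cast_natCast, ZMod.natCast_zmod_val,
      ZMod.natCast_zmod_val]
    unfold uu
    ring
  rw [ZMod.intCast_zmod_eq_zero_iff_dvd] at h1
  obtain ⟨m, hm⟩ := h1
  refine ⟨m, ?_⟩
  push_cast at hm
  linarith

private theorem g2_ind_of_not {p : Prop} (h : ¬ p) : ind p = 0 := by
  unfold ind; rw [if_neg h]

open Classical in
private theorem g2_sum_ind {α : Type} [Fintype α] (P : α → Prop) :
    ∑ v, ind (P v) = ((univ.filter P).card : ℝ) := by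
  unfold ind
  rw [Finset.sum_boole]

/-- the count of the centres -/
private theorem g2_count {n : ℕ} (c : Cfg n) {k j : ℕ} (hk : k ≤ n) (hj : k ≤ j) (x : Sp n) :
    ∑ ξ : Fin (3 ^ n), ind (obs c k j ((ξ, x.1.2), x.2) = obs c k j x) ≤ 3 * 3 ^ (n - k) := by
  classical
  rw [g2_sum_ind]
  obtain ⟨⟨ξ0, w⟩, τ⟩ := x
  simp only
  choose m hm using fun ξ : Fin (3 ^ n) => g2_rep c ((ξ, w), τ)
  set A := univ.filter fun ξ : Fin (3 ^ n) =>
    obs c k j ((ξ, w), τ) = obs c k j ((ξ0, w), τ) with hA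
  obtain ⟨b, hb⟩ : Odd (3 ^ (n - k + 1)) := Odd.pow (by decide)
  -- the integers `y ξ = ξ + 3^n m ξ`
  set y : Fin (3 ^ n) → ℤ := fun ξ => ((ξ : ℕ) : ℤ) + 3 ^ n * m ξ with hy
  have hcard : A.card ≤ (Icc (-(b : ℤ)) (b : ℤ)).card := by
    refine Finset.card_le_card_of_injOn (fun ξ => y ξ - y ξ0) ?_ ?_
    · intro ξ hξ
      simp only [hA, Finset.coe_filter, Finset.mem_univ, true_and, Set.mem_ofPred_eq] at hξ
      simp only [Finset.coe_Icc, Set.mem_Icc]
      simp only [obs, Prod.mk.injEq, true_and] at hξ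
      obtain ⟨h1, h2⟩ := hξ
      have e1 := hm ξ
      have e2 := hm ξ0
      simp only [yi] at e1 e2
      -- the cell
      have hLpos : (0 : ℕ) < 3 ^ (2 * n - k) := by positivity
      have hU : |((uu c ((ξ, w), τ)).val : ℤ) - ((uu c ((ξ0, w), τ)).val : ℤ)|
          < ((3 ^ (2 * n - k) : ℕ) : ℤ) := by
        unfold cell at h1
        have a1 := Nat.div_add_mod (uu c ((ξ, w), τ)).val (3 ^ (2 * n - k))
        have a2 := Nat.div_add_mod (uu c ((ξ0, w), τ)).val (3 ^ (2 * n - k))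
        have a3 := Nat.mod_lt (uu c ((ξ, w), τ)).val hLpos
        have a4 := Nat.mod_lt (uu c ((ξ0, w), τ)).val hLpos
        rw [h1] at a1
        generalize (uu c ((ξ, w), τ)).val = p at *
        generalize (uu c ((ξ0, w), τ)).val = q at *
        generalize 3 ^ (2 * n - k) = L at *
        generalize L * (q / L) = r at *
        rw [abs_lt]
        constructor <;> omega
      -- the radius
      have hR : |(c.R ξ : ℤ) - (c.R ξ0 : ℤ)| ≤ ((3 ^ (n - j) : ℕ) : ℤ) - 1 := by
        simp only [bR] at h2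
        have hpos : (0 : ℕ) < 3 ^ (n - j) := by positivity
        have a1 := Nat.div_add_mod (c.R ξ) (3 ^ (n - j))
        have a2 := Nat.div_add_mod (c.R ξ0) (3 ^ (n - j))
        have a3 := Nat.mod_lt (c.R ξ) hpos
        have a4 := Nat.mod_lt (c.R ξ0) hpos
        rw [h2] at a1
        generalize c.R ξ = p at *
        generalize c.R ξ0 = q at *
        generalize 3 ^ (n - j) = L at *
        generalize L * (q / L) = r at *
        rw [abs_le]
        constructor <;> omega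
      have hE := abs_E_le w
      -- together
      have hkey : 3 ^ n * (y ξ - y ξ0)
          = (((uu c ((ξ, w), τ)).val : ℤ) - ((uu c ((ξ0, w), τ)).val : ℤ))
            - ((c.R ξ : ℤ) - (c.R ξ0 : ℤ)) * E w := by
        rw [e1, e2]
        simp only [hy]
        have : (3 : ℤ) ^ (2 * n) = 3 ^ n * 3 ^ n := by rw [two_mul, pow_add]
        rw [this]
        ring
      have hRE : 2 * |((c.R ξ : ℤ) - (c.R ξ0 : ℤ)) * E w| ≤ (3 ^ (n - k) - 1) * (3 ^ n - 1) := by
        rw [abs_mul]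
        have h3 : ((3 ^ (n - j) : ℕ) : ℤ) ≤ 3 ^ (n - k) := by
          have : (3 : ℕ) ^ (n - j) ≤ 3 ^ (n - k) := Nat.pow_le_pow_right (by norm_num) (by omega)
          exact_mod_cast this
        have h4 := abs_nonneg (E w)
        have h5 := abs_nonneg ((c.R ξ : ℤ) - (c.R ξ0 : ℤ))
        have h6 : |(c.R ξ : ℤ) - (c.R ξ0 : ℤ)| ≤ 3 ^ (n - k) - 1 := by linarith
        calc 2 * (|(c.R ξ : ℤ) - (c.R ξ0 : ℤ)| * |E w|)
            = |(c.R ξ : ℤ) - (c.R ξ0 : ℤ)| * (2 * |E w|) := by ring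
          _ ≤ (3 ^ (n - k) - 1) * (3 ^ n - 1) :=
              mul_le_mul h6 hE (by positivity) (by linarith)
      have hL : ((3 ^ (2 * n - k) : ℕ) : ℤ) = 3 ^ n * 3 ^ (n - k) := by
        push_cast
        rw [← pow_add]
        congr 1
        omega
      rw [hL] at hU
      have hfin : 2 * (3 ^ n * |y ξ - y ξ0|) < 3 ^ n * (3 * 3 ^ (n - k)) := by
        have h3 : 3 ^ n * |y ξ - y ξ0| = |3 ^ n * (y ξ - y ξ0)| := by
          rw [abs_mul, abs_of_nonneg (by positivity : (0 : ℤ) ≤ 3 ^ n)]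
        rw [h3, hkey]
        have h4 := abs_sub (((uu c ((ξ, w), τ)).val : ℤ) - ((uu c ((ξ0, w), τ)).val : ℤ))
          (((c.R ξ : ℤ) - (c.R ξ0 : ℤ)) * E w)
        have h5 : (1 : ℤ) ≤ 3 ^ n := one_le_pow₀ (by norm_num)
        have h6 : (1 : ℤ) ≤ 3 ^ (n - k) := one_le_pow₀ (by norm_num)
        have h7 : ((3 : ℤ) ^ (n - k) - 1) * (3 ^ n - 1) ≤ 3 ^ n * 3 ^ (n - k) := by nlinarith
        nlinarith
      have hfin2 : 2 * |y ξ - y ξ0| < 3 * 3 ^ (n - k) := by
        have h5 : (0 : ℤ) < 3 ^ n := by positivity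
        have h6 : 3 ^ n * (2 * |y ξ - y ξ0|) < 3 ^ n * (3 * 3 ^ (n - k)) := by linarith
        exact lt_of_mul_lt_mul_left h6 h5.le
      have hb' : (3 : ℤ) * 3 ^ (n - k) = 2 * b + 1 := by
        have : (3 : ℤ) ^ (n - k + 1) = 2 * b + 1 := by exact_mod_cast hb
        rw [← this, pow_succ]
        ring
      rw [hb'] at hfin2
      have h8 : |y ξ - y ξ0| ≤ b := by omega
      exact abs_le.mp h8
    · intro ξ _ ξ' _ hξ
      simp only [hy] at hξ
      have h1 : ((ξ : ℕ) : ℤ) + 3 ^ n * m ξ = ((ξ' : ℕ) : ℤ) + 3 ^ n * m ξ' := by linarith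
      have h2 : ((ξ : ℕ) : ℤ) ≡ ((ξ' : ℕ) : ℤ) [ZMOD (3 ^ n : ℤ)] := by
        refine (Int.modEq_iff_dvd).mpr ⟨m ξ - m ξ', ?_⟩
        linarith
      have h3 : (ξ : ℕ) ≡ (ξ' : ℕ) [MOD 3 ^ n] := by
        have : (((3 ^ n : ℕ) : ℤ)) = (3 : ℤ) ^ n := by push_cast; rfl
        rw [← this] at h2
        exact Int.natCast_modEq_iff.mp h2
      exact Fin.ext (Nat.ModEq.eq_of_lt_of_lt h3 ξ.2 ξ'.2)
  rw [Int.card_Icc] at hcard
  have h9 : A.card ≤ 3 ^ (n - k + 1) := by omega
  have h10 : (A.card : ℝ) ≤ 3 * 3 ^ (n - k) := by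
    have h11 : (A.card : ℝ) ≤ ((3 ^ (n - k + 1) : ℕ) : ℝ) := Nat.cast_le.mpr h9
    rw [pow_succ] at h11
    push_cast at h11
    linarith
  convert h10

/-- given the translation, the word, the cell of level `k` of `u` and `j` digits of the radius,
there are few centres -/
theorem pm_obs_le {n : ℕ} (c : Cfg n) {k j : ℕ} (hk : k ≤ n) (hj : k ≤ j) (x : Sp n) :
    pm (mu c) (obs c k j) x ≤ 3 * 3 ^ (n - k) / (c.G.card * 3 ^ (2 * n)) := by
  have hG : 0 < c.G.card := Finset.card_pos.mpr c.ne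
  set C : ℝ := 1 / ((c.G.card : ℝ) * 3 ^ (2 * n)) with hC
  have hC0 : 0 ≤ C := by positivity
  have hmu : ∀ y : Sp n, mu c y ≤ C := by
    intro y
    unfold mu
    split_ifs
    · exact le_refl _
    · exact hC0
  have h1 : pm (mu c) (obs c k j) x
      ≤ ∑ ξ : Fin (3 ^ n), C * ind (obs c k j ((ξ, x.1.2), x.2) = obs c k j x) := by
    unfold pm
    rw [Fintype.sum_prod_type, Fintype.sum_prod_type]
    refine Finset.sum_le_sum fun ξ _ => ?_
    rw [Finset.sum_eq_single x.1.2]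
    · rw [Finset.sum_eq_single x.2]
      · have h2 := hmu ((ξ, x.1.2), x.2)
        refine mul_le_mul_of_nonneg_right h2 ?_
        unfold ind
        split_ifs <;> norm_num
      · intro τ _ hτ
        rw [g2_ind_of_not, mul_zero]
        intro h
        simp only [obs, Prod.mk.injEq] at h
        exact hτ h.1
      · intro h
        exact absurd (Finset.mem_univ _) h
    · intro w _ hw
      refine Finset.sum_eq_zero fun τ _ => ?_
      rw [g2_ind_of_not, mul_zero]
      intro h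
      simp only [obs, Prod.mk.injEq] at h
      exact hw h.2.1
    · intro h
      exact absurd (Finset.mem_univ _) h
  rw [← Finset.mul_sum] at h1
  refine h1.trans ((mul_le_mul_of_nonneg_left (g2_count c hk hj x) hC0).trans (le_of_eq ?_))
  rw [hC]
  ring

end Pool.Agent.helper32.Cant
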